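import Pool.Agent.Q270.EN.Stm2

/-! # Project EN (helper270), job RATE (helper177) -/

set_option autoImplicit false

namespace Pool.Agent.Q177.EN

open Finset Filter Topology MeasureTheory
open Pool.Agent.Q270.EN

/-- comparison series -/
lemma summable_F {κ : ℝ} (hκ : 0 < κ) :
    Summable fun n : ℕ => 1 / ((n : ℝ) * (Real.log (n + 1)) ^ (1 + κ)) := by
  have hlog2 : 0 < Real.log 2 := Real.log_pos (by norm_num)
  rw [← summable_condensed_iff_of_nonneg]
  · have hs : Summable fun k : ℕ => (1 / (Real.log 2) ^ (1 + κ)) * (1 / (k : ℝ) ^ (1 + κ)) :=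
      (Real.summable_one_div_nat_rpow.2 (by linarith)).mul_left _
    refine Summable.of_norm_bounded_eventually_nat hs ?_
    filter_upwards [eventually_ge_atTop 1] with k hk
    have hk0 : (0 : ℝ) < k := by exact_mod_cast hk
    have h1 : (k : ℝ) * Real.log 2 ≤ Real.log (((2 ^ k : ℕ) : ℝ) + 1) := by
      rw [← Real.log_pow]
      refine Real.log_le_log (by positivity) ?_
      push_cast
      linarith
    have h2 : 0 < (k : ℝ) * Real.log 2 := by positivity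
    have h3 : ((k : ℝ) * Real.log 2) ^ (1 + κ) ≤ (Real.log (((2 ^ k : ℕ) : ℝ) + 1)) ^ (1 + κ) :=
      Real.rpow_le_rpow h2.le h1 (by linarith)
    have h4 : 0 < ((k : ℝ) * Real.log 2) ^ (1 + κ) := Real.rpow_pos_of_pos h2 _
    have h5 : 0 < (Real.log (((2 ^ k : ℕ) : ℝ) + 1)) ^ (1 + κ) := h4.trans_le h3
    have h6 : (2 : ℝ) ^ k * (1 / (((2 ^ k : ℕ) : ℝ) * (Real.log (((2 ^ k : ℕ) : ℝ) + 1)) ^ (1 + κ))) =
        1 / (Real.log (((2 ^ k : ℕ) : ℝ) + 1)) ^ (1 + κ) := by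
      push_cast
      field_simp
    rw [h6, Real.norm_of_nonneg (by positivity)]
    refine (one_div_le_one_div_of_le h4 h3).trans (le_of_eq ?_)
    rw [Real.mul_rpow hk0.le hlog2.le]
    field_simp
  · intro n
    have : 0 ≤ Real.log ((n : ℝ) + 1) := Real.log_nonneg (by linarith [Nat.cast_nonneg (α := ℝ) n])
    positivity
  · intro m n hm hmn
    have hm0 : (0 : ℝ) < m := by exact_mod_cast hm
    have hmn' : (m : ℝ) ≤ n := by exact_mod_cast hmn
    have h0 : 0 < Real.log ((m : ℝ) + 1) := Real.log_pos (by linarith)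
    have h1 : Real.log ((m : ℝ) + 1) ≤ Real.log ((n : ℝ) + 1) :=
      Real.log_le_log (by linarith) (by linarith)
    have h2 : (Real.log ((m : ℝ) + 1)) ^ (1 + κ) ≤ (Real.log ((n : ℝ) + 1)) ^ (1 + κ) :=
      Real.rpow_le_rpow h0.le h1 (by linarith)
    have h3 : 0 < (Real.log ((m : ℝ) + 1)) ^ (1 + κ) := Real.rpow_pos_of_pos h0 _
    exact one_div_le_one_div_of_le (by positivity) (mul_le_mul hmn' h2 h3.le (by linarith))

lemma pr_filter_le (P : Set ℕ) {p x : ℕ} (h : p ≤ x) : (pr P x).filter (· ≤ p) = pr P p := by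
  classical
  ext q
  unfold pr
  simp only [mem_filter, mem_Icc]
  constructor
  · rintro ⟨⟨⟨a, b⟩, c⟩, d⟩
    exact ⟨⟨a, d⟩, c⟩
  · rintro ⟨⟨a, b⟩, c⟩
    exact ⟨⟨⟨a, b.trans h⟩, c⟩, b⟩

lemma pr_filter_lt (P : Set ℕ) {p x : ℕ} (h : p ≤ x) :
    (pr P x).filter (· < p) = (pr P p).filter (· < p) := by
  classical
  ext q
  unfold pr
  simp only [mem_filter, mem_Icc]
  constructor
  · rintro ⟨⟨⟨a, b⟩, c⟩, d⟩
    exact ⟨⟨⟨a, d.le⟩, c⟩, d⟩
  · rintro ⟨⟨⟨a, b⟩, c⟩, d⟩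
    exact ⟨⟨⟨a, b.trans h⟩, c⟩, d⟩

lemma dd_eq {Ω : Type} [MeasurableSpace Ω] (μ : Measure Ω) (e : ℕ → Ω → ℝ) (P : Set ℕ) {p x : ℕ}
    (h : p ≤ x) : dd μ e (pr P x) p = dd μ e (pr P p) p := by
  unfold dd
  rw [pr_filter_le P h, pr_filter_lt P h, pr_filter_le P (le_refl p)]

lemma sum_dd (hTEL : S_TEL) {Ω : Type} [MeasurableSpace Ω] (μ : Measure Ω) [IsProbabilityMeasure μ]
    (e : ℕ → Ω → ℝ) (he : Sgn e) (P : Set ℕ) (x : ℕ) :
    ∑ p ∈ pr P x, dd μ e (pr P p) p = defic μ e (pr P x) := by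
  classical
  have h1 := hTEL Ω μ e he (pr P x) x
  have h2 : (pr P x).filter (· ≤ x) = pr P x := pr_filter_le P (le_refl x)
  rw [h2] at h1
  rw [← h1]
  refine sum_congr rfl fun p hp => ?_
  have hpx : p ≤ x := by
    unfold pr at hp
    exact (mem_Icc.1 (mem_filter.1 hp).1).2
  exact (dd_eq μ e P hpx).symm

lemma card_pr_le (P : Set ℕ) (x : ℕ) : (pr P x).card ≤ Nat.primeCounting x := by
  classical
  rw [Nat.primeCounting, Nat.primeCounting', Nat.count_eq_card_filter_range]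
  refine card_le_card fun p hp => ?_
  unfold pr at hp
  rw [mem_filter, mem_Icc] at hp
  rw [mem_filter, mem_range]
  exact ⟨by omega, hp.2.1⟩

/-- the bound of the blocks -/
lemma summable_B {A : ℕ → ℝ} (P : Set ℕ) (hA0 : ∀ x, 0 ≤ A x) {κ : ℝ} (hκ : 0 < κ)
    (hA : ∀ᶠ x : ℕ in atTop, A x ≤ (pr P x).card / (Real.log (Real.log x)) ^ (1 + κ)) :
    Summable fun i : ℕ => A (2 ^ (i + 1)) / 2 ^ i := by
  have hlog2 : 0 < Real.log 2 := Real.log_pos (by norm_num)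
  have hlog2' : (1 / 2 : ℝ) ≤ Real.log 2 := by
    have := Real.log_two_gt_d9
    linarith
  obtain ⟨C, hC⟩ : ∃ C, C = Real.log 4 + 1 := ⟨_, rfl⟩
  have hC0 : 0 < C := by
    rw [hC]
    have : 0 < Real.log 4 := Real.log_pos (by norm_num)
    linarith
  have hs := ((summable_nat_add_iff 1).2 (summable_F hκ)).mul_left (2 * C / Real.log 2 * 2 ^ (1 + κ))
  refine Summable.of_norm_bounded_eventually_nat hs ?_
  have hcheb := Chebyshev.eventually_primeCounting_le (ε := 1) one_pos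
  have ht : Tendsto (fun i : ℕ => (2 : ℝ) ^ (i + 1)) atTop atTop :=
    (tendsto_pow_atTop_atTop_of_one_lt (by norm_num)).comp (tendsto_add_atTop_nat 1)
  have ht' : Tendsto (fun i : ℕ => 2 ^ (i + 1)) atTop atTop :=
    (tendsto_pow_atTop_atTop_of_one_lt (by norm_num : 1 < 2)).comp (tendsto_add_atTop_nat 1)
  filter_upwards [ht.eventually hcheb, ht'.eventually hA, eventually_ge_atTop 4] with i h1 h2 h3
  rw [Real.norm_of_nonneg (div_nonneg (hA0 _) (by positivity))]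
  have hi3 : (4 : ℝ) ≤ i := by exact_mod_cast h3
  -- the number of primes
  have hfl : ⌊(2 : ℝ) ^ (i + 1)⌋₊ = 2 ^ (i + 1) := by
    have : ((2 : ℝ) ^ (i + 1)) = ((2 ^ (i + 1) : ℕ) : ℝ) := by push_cast; ring
    rw [this, Nat.floor_natCast]
  rw [hfl, ← hC, Real.log_pow] at h1
  have hcard : ((pr P (2 ^ (i + 1))).card : ℝ) ≤ C * 2 ^ (i + 1) / (((i + 1 : ℕ) : ℝ) * Real.log 2) := by
    refine le_trans ?_ h1
    exact_mod_cast card_pr_le P (2 ^ (i + 1))
  -- the double logarithm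
  have hll : Real.log ((2 ^ (i + 1) : ℕ) : ℝ) = ((i : ℝ) + 1) * Real.log 2 := by
    push_cast
    rw [Real.log_pow]
    push_cast
    ring
  rw [hll] at h2
  have hL : (1 / 2) * Real.log ((i : ℝ) + 2) ≤ Real.log (((i : ℝ) + 1) * Real.log 2) := by
    have e1 : (1 / 2) * Real.log ((i : ℝ) + 2) = Real.log (Real.sqrt ((i : ℝ) + 2)) := by
      rw [Real.log_sqrt (by linarith)]
      ring
    rw [e1]
    refine Real.log_le_log (Real.sqrt_pos.2 (by linarith)) ?_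
    rw [Real.sqrt_le_left (by positivity)]
    have e2 : (((i : ℝ) + 1) / 2) ^ 2 ≤ (((i : ℝ) + 1) * Real.log 2) ^ 2 := by
      refine pow_le_pow_left₀ (by positivity) ?_ 2
      nlinarith
    nlinarith
  have hL0 : 0 < (1 / 2) * Real.log ((i : ℝ) + 2) := by
    have : 0 < Real.log ((i : ℝ) + 2) := Real.log_pos (by linarith)
    linarith
  have hLp : ((1 / 2) * Real.log ((i : ℝ) + 2)) ^ (1 + κ) ≤
      (Real.log (((i : ℝ) + 1) * Real.log 2)) ^ (1 + κ) :=
    Real.rpow_le_rpow hL0.le hL (by linarith)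
  have hLp0 : 0 < ((1 / 2) * Real.log ((i : ℝ) + 2)) ^ (1 + κ) := Real.rpow_pos_of_pos hL0 _
  have h4 : A (2 ^ (i + 1)) ≤ C * 2 ^ (i + 1) / (((i + 1 : ℕ) : ℝ) * Real.log 2) /
      ((1 / 2) * Real.log ((i : ℝ) + 2)) ^ (1 + κ) := by
    refine h2.trans ?_
    refine div_le_div₀ (by positivity) hcard hLp0 hLp
  have h5 : A (2 ^ (i + 1)) / 2 ^ i ≤ (C * 2 ^ (i + 1) / (((i + 1 : ℕ) : ℝ) * Real.log 2) /
      ((1 / 2) * Real.log ((i : ℝ) + 2)) ^ (1 + κ)) / 2 ^ i :=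
    div_le_div_of_nonneg_right h4 (by positivity)
  refine h5.trans (le_of_eq ?_)
  have h6 : ((1 / 2) * Real.log ((i : ℝ) + 2)) ^ (1 + κ) =
      ((2 : ℝ) ^ (1 + κ))⁻¹ * (Real.log ((i : ℝ) + 2)) ^ (1 + κ) := by
    rw [Real.mul_rpow (by norm_num) (Real.log_nonneg (by linarith)), one_div, Real.inv_rpow (by norm_num)]
  have h7 : 0 < (2 : ℝ) ^ (1 + κ) := Real.rpow_pos_of_pos (by norm_num) _
  have h8 : 0 < (Real.log ((i : ℝ) + 2)) ^ (1 + κ) := Real.rpow_pos_of_pos (Real.log_pos (by linarith)) _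
  rw [h6]
  push_cast
  rw [show (i : ℝ) + 1 + 1 = i + 2 by ring, pow_succ]
  field_simp

/-- dyadic blocks -/
lemma sum_range_pow (g : ℕ → ℝ) (K : ℕ) :
    ∑ n ∈ range (2 ^ K), g n = g 0 + ∑ i ∈ range K, ∑ n ∈ Ico (2 ^ i) (2 ^ (i + 1)), g n := by
  induction K with
  | zero => simp
  | succ K ih =>
    rw [sum_range_succ, ← add_assoc, ← ih, ← sum_range_add_sum_Ico]
    exact Nat.pow_le_pow_right (by norm_num) (Nat.le_succ K)

theorem t_RATE : S_TEL → S_RATE := by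
  classical
  intro hTEL Ω _ μ _ e he P hdd hrate
  obtain ⟨κ, hκ, hrate⟩ := hrate
  obtain ⟨g, hg⟩ : ∃ g : ℕ → ℝ, g = fun p => if p.Prime ∧ p ∈ P then dd μ e (pr P p) p / (p : ℕ) else 0 :=
    ⟨_, rfl⟩
  have hg0 : ∀ p, 0 ≤ g p := by
    intro p
    rw [hg]
    dsimp only
    split_ifs with h
    · exact div_nonneg (hdd p h.1 h.2) (Nat.cast_nonneg p)
    · exact le_refl 0
  have hA0 : ∀ x, 0 ≤ defic μ e (pr P x) := by
    intro x
    rw [← sum_dd hTEL μ e he P x]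
    refine sum_nonneg fun p hp => ?_
    unfold pr at hp
    exact hdd p (mem_filter.1 hp).2.1 (mem_filter.1 hp).2.2
  have hB := summable_B P hA0 hκ hrate
  have hblock : ∀ i : ℕ, ∑ n ∈ Ico (2 ^ i) (2 ^ (i + 1)), g n ≤ defic μ e (pr P (2 ^ (i + 1))) / 2 ^ i := by
    intro i
    rw [← sum_dd hTEL μ e he P, sum_div]
    have h1 : ∑ n ∈ Ico (2 ^ i) (2 ^ (i + 1)), g n =
        ∑ n ∈ (Ico (2 ^ i) (2 ^ (i + 1))).filter (fun p => p.Prime ∧ p ∈ P), dd μ e (pr P n) n / (n : ℕ) := by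
      rw [hg, sum_filter]
    rw [h1]
    refine le_trans (sum_le_sum (g := fun n => dd μ e (pr P n) n / 2 ^ i) ?_) ?_
    · intro p hp
      rw [mem_filter, mem_Ico] at hp
      refine div_le_div_of_nonneg_left (hdd p hp.2.1 hp.2.2) (by positivity) ?_
      exact_mod_cast hp.1.1
    · refine sum_le_sum_of_subset_of_nonneg ?_ ?_
      · intro p hp
        rw [mem_filter, mem_Ico] at hp
        unfold pr
        rw [mem_filter, mem_Icc]
        exact ⟨⟨hp.2.1.one_le, hp.1.2.le⟩, hp.2⟩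
      · intro p hp _
        unfold pr at hp
        exact div_nonneg (hdd p (mem_filter.1 hp).2.1 (mem_filter.1 hp).2.2) (by positivity)
  have hsum : Summable g := by
    refine summable_of_sum_range_le (c := g 0 + ∑' i : ℕ, defic μ e (pr P (2 ^ (i + 1))) / 2 ^ i) hg0 ?_
    intro n
    have h1 : ∑ i ∈ range n, g i ≤ ∑ i ∈ range (2 ^ n), g i := by
      refine sum_le_sum_of_subset_of_nonneg ?_ fun i _ _ => hg0 i
      exact range_subset_range.2 Nat.lt_two_pow_self.le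
    refine h1.trans ?_
    rw [sum_range_pow]
    have h2 : ∑ i ∈ range n, ∑ m ∈ Ico (2 ^ i) (2 ^ (i + 1)), g m ≤
        ∑ i ∈ range n, defic μ e (pr P (2 ^ (i + 1))) / 2 ^ i := sum_le_sum fun i _ => hblock i
    have h3 : ∑ i ∈ range n, defic μ e (pr P (2 ^ (i + 1))) / 2 ^ i ≤
        ∑' i : ℕ, defic μ e (pr P (2 ^ (i + 1))) / 2 ^ i :=
      hB.sum_le_tsum _ fun i _ => div_nonneg (hA0 _) (by positivity)
    linarith
  have h4 := hsum.comp_injective (i := fun p : {p : ℕ // p.Prime ∧ p ∈ P} => (p : ℕ)) Subtype.val_injective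
  refine h4.congr fun p => ?_
  rw [Function.comp_apply, hg]
  dsimp only
  rw [if_pos p.2]

end Pool.Agent.Q177.EN
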